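import Pool.Agent.H71.FX.Targets2

/-! MP_64fb07_lc, fxm_modules, row FV: only the values of the variables which occur matter. -/

set_option autoImplicit false

namespace Pool.Agent.H35.FX

open Pool.Agent.H71.FX Pool.Agent.H71.PF

theorem fv_val {α : Type} (f : ℕ → List α → α) {k : ℕ} {v w : ℕ → α} (h : ∀ i < k, v i = w i)
    (s : Tm) : s.Vars k → s.val f v = s.val f w := by
  induction s with
  | var x => exact fun hx => h x hx
  | app i ts ih =>
    intro hx
    show f i (List.ofFn fun j => (ts j).val f v) = f i (List.ofFn fun j => (ts j).val f w)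
    have h1 : (fun j => (ts j).val f v) = fun j => (ts j).val f w := funext fun j => ih j (hx j)
    rw [h1]

theorem pf_FV : T_FV := by
  intro α f R φ k v w hφ h
  induction φ with
  | rel i ts =>
    show R i (ts.map (Tm.val f v)) ↔ R i (ts.map (Tm.val f w))
    rw [List.map_congr_left fun t ht => fv_val f h t (hφ t ht)]
  | eq s t =>
    show s.val f v = t.val f v ↔ s.val f w = t.val f w
    rw [fv_val f h s hφ.1, fv_val f h t hφ.2]
  | neg φ ih => exact not_congr (ih hφ)
  | and φ ψ ih1 ih2 => exact and_congr (ih1 hφ.1) (ih2 hφ.2)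

end Pool.Agent.H35.FX
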