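import Pool.Agent.H71.FX.Targets3

/-! MP_64fb07_lc, fxm_modules, row TX: substitution of terms in a relational formula. -/

set_option autoImplicit false

namespace Pool.Agent.H35.FX

open Pool.Agent.H71.FX Pool.Agent.H8.PL Pool.Agent.H71.PF Pool.Agent.H69.Sp Pool.Agent.H8.JS

/-- the substitution -/
def txS (σ : ℕ → Tm) : Pool.Agent.H71.PX.QF → QF
  | .rel i xs => .rel i (xs.map σ)
  | .eq x y => .eq (σ x) (σ y)
  | .neg φ => .neg (txS σ φ)
  | .and φ ψ => .and (txS σ φ) (txS σ ψ)

theorem pf_TX : T_TX := by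
  intro φ σ
  refine ⟨txS σ φ, fun k K hφ hσ => ?_, fun F hF hb => ?_, fun α f R v => ?_⟩
  · induction φ with
    | rel i xs =>
      intro t ht
      obtain ⟨x, hx, rfl⟩ := List.mem_map.1 ht
      exact hσ x (hφ x hx)
    | eq x y => exact ⟨hσ x hφ.1, hσ y hφ.2⟩
    | neg φ ih => exact ih hφ
    | and φ ψ ih1 ih2 => exact ⟨ih1 hφ.1, ih2 hφ.2⟩
  · induction φ with
    | rel i xs =>
      refine ⟨?_, ?_, ?_⟩
      · rw [List.length_map]
        rcases hb with h | h <;> omega
      · rw [List.length_map]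
        rcases hb with h | h <;> omega
      · intro t ht
        obtain ⟨x, hx, rfl⟩ := List.mem_map.1 ht
        exact hF x
    | eq x y => exact ⟨hF x, hF y⟩
    | neg φ ih => exact ih hb
    | and φ ψ ih1 ih2 => exact ⟨ih1 hb.1, ih2 hb.2⟩
  · induction φ with
    | rel i xs =>
      show R i ((xs.map σ).map (Tm.val f v)) ↔ R i (xs.map fun i => (σ i).val f v)
      rw [List.map_map]
      rfl
    | eq x y => exact Iff.rfl
    | neg φ ih => exact not_congr ih
    | and φ ψ ih1 ih2 => exact and_congr ih1 ih2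

end Pool.Agent.H35.FX
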